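import Pool.Agent.Helper93.LCH.Stmts
import Pool.Agent.Helper93.LCH.Basic3

/-!
Row UEA (MP_b555a2_al, project of helper93): expansion of a sum.
-/

namespace LCH79

open LCH

universe u v w

theorem st_UEA (hX : ST_XADD.{max u v}) : ST_UEA.{u, v, w} := by
  classical
  intro K _ G _ T _ a b L χ ψ hnh ha hb
  obtain ⟨ε1, hε1, S1, c1, hS1, hc1, hm1, hl1, hE1⟩ := ha
  obtain ⟨ε2, hε2, S2, c2, hS2, hc2, hm2, hl2, hE2⟩ := hb
  set c : ℝ → Ex K G := fun r =>
    if r ∈ S1 then (if r ∈ S2 then Ex.add (c1 r) (c2 r) else c1 r) else c2 r with hc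
  have c11 : ∀ r, r ∈ S1 → r ∈ S2 → c r = Ex.add (c1 r) (c2 r) := by
    intro r h1 h2
    rw [hc]
    simp only [if_pos h1, if_pos h2]
  have c10 : ∀ r, r ∈ S1 → r ∉ S2 → c r = c1 r := by
    intro r h1 h2
    rw [hc]
    simp only [if_pos h1, if_neg h2]
  have c01 : ∀ r, r ∉ S1 → c r = c2 r := by
    intro r h1
    rw [hc]
    simp only [if_neg h1]
  have single1 : ∀ r ∈ S1, mle ((c1 r).meas T) (a.meas T) := by
    intro r hr
    have := hm1 {r} (by
      intro q hq
      rw [Finset.mem_singleton] at hq
      rw [hq]; exact hr)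
    rw [Finset.sum_singleton] at this
    exact this
  have single2 : ∀ r ∈ S2, mle ((c2 r).meas T) (b.meas T) := by
    intro r hr
    have := hm2 {r} (by
      intro q hq
      rw [Finset.mem_singleton] at hq
      rw [hq]; exact hr)
    rw [Finset.sum_singleton] at this
    exact this
  refine ⟨min ε1 ε2, lt_min hε1 hε2, S1 ∪ S2, c, ?_, ?_, ?_, ?_, ?_⟩
  · intro r hr
    exact absurd ⟨r, hr⟩ hnh
  · intro r hr
    by_cases h1 : r ∈ S1
    · by_cases h2 : r ∈ S2
      · rw [c11 r h1 h2]
        refine ⟨?_, (hc1 r h1).2, (hc2 r h2).2⟩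
        intro g hg
        rcases hg with hg | hg
        · exact (hc1 r h1).1 g hg
        · exact (hc2 r h2).1 g hg
      · rw [c10 r h1 h2]
        exact hc1 r h1
    · rw [c01 r h1]
      rcases hr with hr | hr
      · exact absurd hr h1
      · exact hc2 r hr
  · intro F hF
    have key : ∑ r ∈ F, (c r).meas T =
        (∑ r ∈ F with r ∈ S1, (c1 r).meas T) + (∑ r ∈ F with r ∈ S2, (c2 r).meas T) := by
      rw [Finset.sum_filter, Finset.sum_filter, ← Finset.sum_add_distrib]
      refine Finset.sum_congr rfl ?_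
      intro r hr
      by_cases h1 : r ∈ S1
      · by_cases h2 : r ∈ S2
        · rw [c11 r h1 h2, if_pos h1, if_pos h2]
          rfl
        · rw [c10 r h1 h2, if_pos h1, if_neg h2, add_zero]
      · rcases hF r hr with h | h
        · exact absurd h h1
        · rw [c01 r h1, if_neg h1, if_pos h, zero_add]
    rw [key]
    refine mle_add (hm1 _ ?_) (hm2 _ ?_)
    · intro r hr
      exact (Finset.mem_filter.1 hr).2
    · intro r hr
      exact (Finset.mem_filter.1 hr).2
  · intro _ r hr
    change MSys.lt ((c r).meas T) (a.meas T + b.meas T)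
    by_cases h1 : r ∈ S1
    · by_cases h2 : r ∈ S2
      · rw [c11 r h1 h2]
        change MSys.lt ((c1 r).meas T + (c2 r).meas T) (a.meas T + b.meas T)
        by_cases ha : ∃ q, a.Hom χ q
        · by_cases hb : ∃ q, b.Hom χ q
          · exfalso
            obtain ⟨qa, hqa⟩ := ha
            obtain ⟨qb, hqb⟩ := hb
            have e1 := hS1 qa hqa
            have e2 := hS2 qb hqb
            rw [e1] at h1
            rw [e2] at h2
            have h1' : r = qa := h1
            have h2' : r = qb := h2
            apply hnh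
            refine ⟨r, ?_, ?_⟩
            · rw [h1']; exact hqa
            · rw [h2']; exact hqb
          · exact lt_add_of_mle_of_lt (single1 r h1) (hl2 hb r h2)
        · exact lt_add_of_lt_of_mle (hl1 ha r h1) (single2 r h2)
      · rw [c10 r h1 h2]
        exact lt_of_mle_of_lt (single1 r h1) (lt_add_self (meas_ne_zero T b))
    · rcases hr with hr | hr
      · exact absurd hr h1
      · rw [c01 r h1, add_comm (a.meas T)]
        exact lt_of_mle_of_lt (single2 r hr) (lt_add_self (meas_ne_zero T a))
  · have E1 : Expn (Phi K L χ ψ (min ε1 ε2)) (a.evA L χ ψ) S1 (fun r => (c1 r).evA L χ ψ) :=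
      hE1.mono_filt (fun B => Phi_mono (min_le_left _ _) B)
    have E2 : Expn (Phi K L χ ψ (min ε1 ε2)) (b.evA L χ ψ) S2 (fun r => (c2 r).evA L χ ψ) :=
      hE2.mono_filt (fun B => Phi_mono (min_le_right _ _) B)
    have E := hX _ (Phi K L χ ψ (min ε1 ε2)) _ _ _ _ _ _ E1 E2
    refine E.congr ?_
    intro r hr
    by_cases h1 : r ∈ S1
    · by_cases h2 : r ∈ S2
      · simp only [if_pos h1, if_pos h2]
        rw [c11 r h1 h2]
        rfl
      · simp only [if_pos h1, if_neg h2, add_zero]
        rw [c10 r h1 h2]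
    · rcases hr with hr | hr
      · exact absurd hr h1
      · simp only [if_neg h1, if_pos hr, zero_add]
        rw [c01 r h1]

end LCH79
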